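import Mathlib

namespace Pool.Agent.Results.MP_484523_pr.NestedAttractor

/-- Majority of three bits. -/
def maj (a b c : Bool) : Bool := (a && b) || (a && c) || (b && c)

/-- The trajectory of NEC-voting: `TR y n s` is the value at the site `s` at time `n - 1`
(so `n = 0` is the time `-1` of the initial configuration). -/
def TR (y : ℤ × ℤ → Bool) : ℕ → ℤ × ℤ → Bool
  | 0 => y
  | n + 1 => fun s => maj (TR y n s) (TR y n (s + (1, 0))) (TR y n (s + (0, 1)))

/-- Two configurations are finite perturbations of each other. -/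
def FinPert (y y' : ℤ × ℤ → Bool) : Prop := {s | y s ≠ y' s}.Finite

/-- `y` is an attractor: for each finite perturbation `y'` of `y`, the trajectories of `y` and
`y'` differ at finitely many space-time points only. -/
def IsAttractor (y : ℤ × ℤ → Bool) : Prop :=
  ∀ y', FinPert y y' → {p : (ℤ × ℤ) × ℕ | TR y p.2 p.1 ≠ TR y' p.2 p.1}.Finite

/-- Light cone. -/
theorem cone {y y' : ℤ × ℤ → Bool} (n : ℕ) : ∀ s : ℤ × ℤ,
    (∀ a b : ℕ, a + b ≤ n → y (s + ((a : ℤ), (b : ℤ))) = y' (s + ((a : ℤ), (b : ℤ)))) →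
      TR y n s = TR y' n s := by
  induction n with
  | zero =>
    intro s h
    have := h 0 0 (by simp)
    have e : s + (((0 : ℕ) : ℤ), ((0 : ℕ) : ℤ)) = s := by ext <;> simp
    rw [e] at this
    exact this
  | succ n ih =>
    intro s h
    have h0 : TR y n s = TR y' n s := ih s fun a b hab => h a b (by omega)
    have h1 : TR y n (s + (1, 0)) = TR y' n (s + (1, 0)) := by
      apply ih
      intro a b hab
      have := h (a + 1) b (by omega)
      have e : s + (1, 0) + ((a : ℤ), (b : ℤ)) = s + (((a + 1 : ℕ) : ℤ), (b : ℤ)) := by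
        ext <;> simp <;> ring
      rw [e]; exact this
    have h2 : TR y n (s + (0, 1)) = TR y' n (s + (0, 1)) := by
      apply ih
      intro a b hab
      have := h a (b + 1) (by omega)
      have e : s + (0, 1) + ((a : ℤ), (b : ℤ)) = s + ((a : ℤ), ((b + 1 : ℕ) : ℤ)) := by
        ext <;> simp <;> ring
      rw [e]; exact this
    simp [TR, h0, h1, h2]

theorem maj_12 (c x : Bool) : maj c c x = c := by cases c <;> cases x <;> rfl
theorem maj_13 (c x : Bool) : maj c x c = c := by cases c <;> cases x <;> rfl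
theorem maj_23 (c x : Bool) : maj x c c = c := by cases c <;> cases x <;> rfl

/-- Erosion of an island. -/
theorem erosion {y : ℤ × ℤ → Bool} {c : Bool} {R : ℤ}
    (hy : ∀ s : ℤ × ℤ, ¬ (-R ≤ s.1 ∧ s.1 ≤ R ∧ -R ≤ s.2 ∧ s.2 ≤ R) → y s = c) (n : ℕ) :
    ∀ s : ℤ × ℤ, (¬ (-R ≤ s.1 ∧ s.1 ≤ R ∧ -R ≤ s.2 ∧ s.2 ≤ R) ∨ 2 * R - n < s.1 + s.2) →
      TR y n s = c := by
  induction n with
  | zero =>
    intro s h
    apply hy
    rcases h with h | h
    · exact h
    · intro h'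
      simp at h
      omega
  | succ n ih =>
    intro s h
    by_cases hb : (-R ≤ s.1 ∧ s.1 ≤ R ∧ -R ≤ s.2 ∧ s.2 ≤ R)
    · have h' : 2 * R - ((n + 1 : ℕ) : ℤ) < s.1 + s.2 := by
        rcases h with h | h
        · exact absurd hb h
        · exact h
      have h1 : TR y n (s + (1, 0)) = c := by
        apply ih
        right
        push_cast at h' ⊢
        simp
        omega
      have h2 : TR y n (s + (0, 1)) = c := by
        apply ih
        right
        push_cast at h' ⊢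
        simp
        omega
      simp only [TR, h1, h2, maj_23]
    · have h0 : TR y n s = c := ih s (Or.inl hb)
      by_cases h1 : -R ≤ s.1 ∧ s.1 ≤ R
      · have h2 : TR y n (s + (1, 0)) = c := by
          apply ih
          left
          simp
          omega
        simp only [TR, h0, h2, maj_12]
      · have h2 : TR y n (s + (0, 1)) = c := by
          apply ih
          left
          simp
          omega
        simp only [TR, h0, h2, maj_13]

/-- The nested configuration. -/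
def nest (s : ℤ × ℤ) : Bool :=
  decide (Nat.log 16 (max s.1.natAbs s.2.natAbs) % 2 = 1)

theorem nest_eq {s : ℤ × ℤ} {k : ℕ} (hk : 16 ^ k ≤ max s.1.natAbs s.2.natAbs)
    (hk' : max s.1.natAbs s.2.natAbs < 16 ^ (k + 1)) : nest s = decide (k % 2 = 1) := by
  have h : Nat.log 16 (max s.1.natAbs s.2.natAbs) = k := by
    apply Nat.log_eq_of_pow_le_of_lt_pow hk hk'
  simp [nest, h]

/-- Values of a trajectory that starts from a configuration equal to `nest` outside the box of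
radius `16 ^ k`. -/
theorem value {y : ℤ × ℤ → Bool} {k : ℕ}
    (hy : ∀ s : ℤ × ℤ, ¬ (-(16 : ℤ) ^ k ≤ s.1 ∧ s.1 ≤ 16 ^ k ∧ -(16 : ℤ) ^ k ≤ s.2 ∧
      s.2 ≤ 16 ^ k) → y s = nest s)
    {n : ℕ} (hn : n ≤ 4 * 16 ^ k + 1) {s : ℤ × ℤ}
    (h1 : -(16 : ℤ) ^ (k + 1) < s.1) (h1' : s.1 ≤ 16 ^ k)
    (h2 : -(16 : ℤ) ^ (k + 1) < s.2) (h2' : s.2 ≤ 16 ^ k)
    (h : ¬ (-(16 : ℤ) ^ k ≤ s.1 ∧ s.1 ≤ 16 ^ k ∧ -(16 : ℤ) ^ k ≤ s.2 ∧ s.2 ≤ 16 ^ k) ∨
      n = 4 * 16 ^ k + 1) :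
    TR y n s = decide (k % 2 = 1) := by
  set c : Bool := decide (k % 2 = 1) with hc
  let z : ℤ × ℤ → Bool := fun s =>
    if (-(16 : ℤ) ^ k ≤ s.1 ∧ s.1 ≤ 16 ^ k ∧ -(16 : ℤ) ^ k ≤ s.2 ∧ s.2 ≤ 16 ^ k) then y s else c
  have hpow : (0 : ℤ) < 16 ^ k := by positivity
  have hpow' : (16 : ℤ) ^ (k + 1) = 16 * 16 ^ k := by ring
  have e : TR y n s = TR z n s := by
    apply cone
    intro a b hab
    by_cases hb : (-(16 : ℤ) ^ k ≤ (s + ((a : ℤ), (b : ℤ))).1 ∧ (s + ((a : ℤ), (b : ℤ))).1 ≤ 16 ^ k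
      ∧ -(16 : ℤ) ^ k ≤ (s + ((a : ℤ), (b : ℤ))).2 ∧ (s + ((a : ℤ), (b : ℤ))).2 ≤ 16 ^ k)
    · simp only [z]; rw [if_pos hb]
    · simp only [z]; rw [if_neg hb, hy _ hb]
      have hn' : (n : ℤ) ≤ 4 * 16 ^ k + 1 := by exact_mod_cast hn
      have hab' : (a : ℤ) + b ≤ n := by exact_mod_cast hab
      simp only [Prod.fst_add, Prod.snd_add] at hb
      apply nest_eq
      · have hz : (16 : ℤ) ^ k ≤ max |(s.1 + a)| |(s.2 + b)| := by
          rw [le_max_iff, le_abs, le_abs]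
          omega
        have : ((16 ^ k : ℕ) : ℤ) ≤ ((max (s.1 + a).natAbs (s.2 + b).natAbs : ℕ) : ℤ) := by
          push_cast
          exact hz
        exact_mod_cast this
      · have hz : max |(s.1 + a)| |(s.2 + b)| < (16 : ℤ) ^ (k + 1) := by
          rw [max_lt_iff, abs_lt, abs_lt]
          refine ⟨⟨by omega, by omega⟩, ⟨by omega, by omega⟩⟩
        have : ((max (s.1 + a).natAbs (s.2 + b).natAbs : ℕ) : ℤ) < ((16 ^ (k + 1) : ℕ) : ℤ) := by
          push_cast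
          exact hz
        exact_mod_cast this
  rw [e]
  apply erosion (c := c) (R := 16 ^ k) (y := z)
  · intro s hs
    simp only [z]
    rw [if_neg hs]
  · rcases h with h | h
    · exact Or.inl h
    · by_cases hb : (-(16 : ℤ) ^ k ≤ s.1 ∧ s.1 ≤ 16 ^ k ∧ -(16 : ℤ) ^ k ≤ s.2 ∧ s.2 ≤ 16 ^ k)
      · right
        rw [h]
        push_cast
        omega
      · exact Or.inl hb

/-- If `y'` equals `nest` outside the box of radius `16 ^ k`, then so do the trajectories, and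
they agree completely from the time `4 * 16 ^ k + 1` on. -/
theorem agree {y' : ℤ × ℤ → Bool} {k : ℕ}
    (hy : ∀ s : ℤ × ℤ, ¬ (-(16 : ℤ) ^ k ≤ s.1 ∧ s.1 ≤ 16 ^ k ∧ -(16 : ℤ) ^ k ≤ s.2 ∧
      s.2 ≤ 16 ^ k) → nest s = y' s) {n : ℕ} {s : ℤ × ℤ} (hne : TR nest n s ≠ TR y' n s) :
    n ≤ 4 * 16 ^ k ∧
      (-(16 : ℤ) ^ k ≤ s.1 ∧ s.1 ≤ 16 ^ k ∧ -(16 : ℤ) ^ k ≤ s.2 ∧ s.2 ≤ 16 ^ k) := by
  have hpow : (0 : ℤ) < 16 ^ k := by positivity
  have hpow' : (16 : ℤ) ^ (k + 1) = 16 * 16 ^ k := by ring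
  have key : ∀ n : ℕ, n ≤ 4 * 16 ^ k + 1 → ∀ s : ℤ × ℤ,
      (¬ (-(16 : ℤ) ^ k ≤ s.1 ∧ s.1 ≤ 16 ^ k ∧ -(16 : ℤ) ^ k ≤ s.2 ∧ s.2 ≤ 16 ^ k) ∨
        n = 4 * 16 ^ k + 1) → TR nest n s = TR y' n s := by
    intro n hn s h
    have hn' : (n : ℤ) ≤ 4 * 16 ^ k + 1 := by exact_mod_cast hn
    by_cases hc : -(16 : ℤ) ^ (k + 1) < s.1 ∧ s.1 ≤ 16 ^ k ∧ -(16 : ℤ) ^ (k + 1) < s.2 ∧
        s.2 ≤ 16 ^ k
    · rw [value (fun _ _ => rfl) hn hc.1 hc.2.1 hc.2.2.1 hc.2.2.2 h,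
        value (fun s hs => (hy s hs).symm) hn hc.1 hc.2.1 hc.2.2.1 hc.2.2.2 h]
    · apply cone
      intro a b hab
      have hab' : (a : ℤ) + b ≤ n := by exact_mod_cast hab
      apply hy
      simp only [Prod.fst_add, Prod.snd_add]
      omega
  have late : ∀ j : ℕ, TR nest (4 * 16 ^ k + 1 + j) = TR y' (4 * 16 ^ k + 1 + j) := by
    intro j
    induction j with
    | zero => funext s; exact key _ le_rfl s (Or.inr rfl)
    | succ j ih =>
      funext s
      rw [← add_assoc]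
      simp only [TR, ih]
  refine ⟨?_, ?_⟩
  · by_contra hcon
    obtain ⟨j, hj⟩ := Nat.exists_eq_add_of_le (show 4 * 16 ^ k + 1 ≤ n by omega)
    apply hne
    rw [hj, late j]
  · by_contra hcon
    by_cases hn : n ≤ 4 * 16 ^ k + 1
    · exact hne (key n hn s (Or.inl hcon))
    · obtain ⟨j, hj⟩ := Nat.exists_eq_add_of_le (show 4 * 16 ^ k + 1 ≤ n by omega)
      apply hne
      rw [hj, late j]

/-- A finite set of sites lies in some box of radius `16 ^ k`. -/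
theorem exists_box {F : Set (ℤ × ℤ)} (hF : F.Finite) :
    ∃ k : ℕ, ∀ s ∈ F, -(16 : ℤ) ^ k ≤ s.1 ∧ s.1 ≤ 16 ^ k ∧ -(16 : ℤ) ^ k ≤ s.2 ∧
      s.2 ≤ 16 ^ k := by
  obtain ⟨M, hM⟩ := (hF.image fun s : ℤ × ℤ => max s.1.natAbs s.2.natAbs).bddAbove
  refine ⟨M, fun s hs => ?_⟩
  have h1 : max s.1.natAbs s.2.natAbs ≤ M := hM ⟨s, hs, rfl⟩
  have h2 : M < 16 ^ M := Nat.lt_pow_self (by norm_num)
  have h3 : max s.1.natAbs s.2.natAbs ≤ 16 ^ M := by omega
  have h4 : (s.1.natAbs : ℤ) ≤ 16 ^ M := by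
    exact_mod_cast (le_max_left _ _).trans h3
  have h5 : (s.2.natAbs : ℤ) ≤ 16 ^ M := by
    exact_mod_cast (le_max_right _ _).trans h3
  omega

theorem finite_box (K : ℤ) (N : ℕ) :
    {p : (ℤ × ℤ) × ℕ | p.2 ≤ N ∧ (-K ≤ p.1.1 ∧ p.1.1 ≤ K ∧ -K ≤ p.1.2 ∧ p.1.2 ≤ K)}.Finite := by
  apply Set.Finite.subset (((Set.finite_Icc (-K) K).prod (Set.finite_Icc (-K) K)).prod
    (Set.finite_Iic N))
  rintro ⟨⟨a, b⟩, n⟩ h
  simp only [Set.mem_ofPred_eq] at h
  simp only [Set.mem_prod, Set.mem_Icc, Set.mem_Iic]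
  tauto

/-- The whole bunch of `nest` consists of attractors. -/
theorem attractor_of_finPert {y : ℤ × ℤ → Bool} (hy : FinPert nest y) : IsAttractor y := by
  intro y' hy'
  obtain ⟨k, hk⟩ := exists_box (hy.union hy')
  apply (finite_box (16 ^ k) (4 * 16 ^ k)).subset
  rintro ⟨s, n⟩ hp
  simp only [Set.mem_ofPred_eq] at hp ⊢
  have e1 : ∀ s : ℤ × ℤ, ¬ (-(16 : ℤ) ^ k ≤ s.1 ∧ s.1 ≤ 16 ^ k ∧ -(16 : ℤ) ^ k ≤ s.2 ∧
      s.2 ≤ 16 ^ k) → nest s = y s := by
    intro s hs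
    by_contra hne
    exact hs (hk s (Or.inl hne))
  have e2 : ∀ s : ℤ × ℤ, ¬ (-(16 : ℤ) ^ k ≤ s.1 ∧ s.1 ≤ 16 ^ k ∧ -(16 : ℤ) ^ k ≤ s.2 ∧
      s.2 ≤ 16 ^ k) → nest s = y' s := by
    intro s hs
    rw [e1 s hs]
    by_contra hne
    exact hs (hk s (Or.inr hne))
  by_cases h1 : TR nest n s = TR y n s
  · have h2 : TR nest n s ≠ TR y' n s := by rw [h1]; exact hp
    exact agree e2 h2
  · exact agree e1 h1

theorem infinite_val (b : Bool) : {s | nest s = b}.Infinite := by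
  obtain ⟨r, hr, hrb⟩ : ∃ r : ℕ, r < 2 ∧ decide (r % 2 = 1) = b := by
    cases b
    · exact ⟨0, by norm_num, rfl⟩
    · exact ⟨1, by norm_num, rfl⟩
  have hinj : Function.Injective fun j : ℕ => (((16 : ℤ) ^ (2 * j + r), (0 : ℤ))) := by
    intro i j hij
    simp only [Prod.mk.injEq, and_true] at hij
    have h : (16 : ℕ) ^ (2 * i + r) = 16 ^ (2 * j + r) := by exact_mod_cast hij
    have := Nat.pow_right_injective (le_refl (2 : ℕ) |>.trans (by norm_num : 2 ≤ 16)) h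
    omega
  apply Set.infinite_of_injective_forall_mem hinj
  intro j
  simp only [Set.mem_ofPred_eq]
  have e : max ((16 : ℤ) ^ (2 * j + r)).natAbs (0 : ℤ).natAbs = 16 ^ (2 * j + r) := by
    simp [Int.natAbs_pow]
  rw [nest_eq (k := 2 * j + r) (by rw [e]) (by rw [e]; exact Nat.pow_lt_pow_right (by norm_num) (by omega))]
  rw [← hrb]
  congr 1
  simp only [eq_iff_iff]
  omega

theorem oscillate (s : ℤ × ℤ) (b : Bool) (N : ℕ) : ∃ n, N ≤ n ∧ TR nest n s = b := by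
  obtain ⟨k, hk⟩ := exists_box (Set.finite_singleton s)
  obtain ⟨r, hr, hrb⟩ : ∃ r : ℕ, r < 2 ∧ decide (r % 2 = 1) = b := by
    cases b
    · exact ⟨0, by norm_num, rfl⟩
    · exact ⟨1, by norm_num, rfl⟩
  set m := 2 * (k + N) + r with hm
  have hs := hk s rfl
  have hkm : (16 : ℤ) ^ k ≤ 16 ^ m := pow_le_pow_right₀ (by norm_num) (by omega)
  have hpow : (0 : ℤ) < 16 ^ m := by positivity
  have hpow' : (16 : ℤ) ^ (m + 1) = 16 * 16 ^ m := by ring
  refine ⟨4 * 16 ^ m + 1, ?_, ?_⟩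
  · have : m < 16 ^ m := Nat.lt_pow_self (by norm_num)
    omega
  · rw [value (k := m) (fun _ _ => rfl) le_rfl (by omega) (by omega) (by omega) (by omega)
      (Or.inr rfl)]
    rw [← hrb]
    congr 1
    simp only [eq_iff_iff]
    omega

/-- There is an attractor of deterministic NEC-voting outside the bunches of `all zeroes` and
`all ones`; moreover all its finite perturbations are attractors, and in its trajectory every
site takes each of the two values at arbitrarily late times. -/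
theorem result : ∃ y : ℤ × ℤ → Bool, IsAttractor y ∧ (∀ y', FinPert y y' → IsAttractor y') ∧
    {s | y s = true}.Infinite ∧ {s | y s = false}.Infinite ∧
    ∀ (s : ℤ × ℤ) (b : Bool) (N : ℕ), ∃ n, N ≤ n ∧ TR y n s = b :=
  ⟨nest, attractor_of_finPert (by simp [FinPert]), fun _ h => attractor_of_finPert h,
    infinite_val true, infinite_val false, oscillate⟩

end Pool.Agent.Results.MP_484523_pr.NestedAttractor
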